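import Pool.Agent.W2helper20.BC.Stm2
import Pool.Agent.W2helper53.BC.Fin

/-!
# The energy inequality from the averaged inequality (piece EN-CONF of helper20's project EN)
-/

set_option autoImplicit false

namespace Pool.Agent.W2helper74.EN

open Set Metric MeasureTheory
open scoped ContDiff InnerProductSpace ENNReal MatrixOrder
open Pool.Agent.Q176.BR Pool.Agent.W2helper20.BC Pool.Agent.W2helper53.BC

variable {n : ℕ}

theorem trace_nonneg' {a b : E n →L[ℝ] E n →L[ℝ] ℝ}
    (ha : ∀ v w, a v w = a w v) (ha' : ∀ v, v ≠ 0 → 0 < a v v)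
    (hb' : ∀ v, 0 ≤ b v v) : 0 ≤ ((gram a)⁻¹ * gram b).trace := by
  obtain ⟨B, hB0, hB, haB⟩ := exists_act ha ha'
  have e1 : ∀ i, b (act B⁻¹ (bs i)) (act B⁻¹ (bs i)) = (B⁻¹.transpose * gram b * B⁻¹) i i := by
    intro i
    have e2 : ∀ j, act B⁻¹ (bs i) j = B⁻¹ j i := by
      intro j
      rw [act_apply, bs]
      simp
    rw [form_eq_gram]
    simp only [e2, Matrix.mul_apply, Matrix.transpose_apply, Finset.sum_mul]
    rw [Finset.sum_comm]
    exact Finset.sum_congr rfl fun j _ => Finset.sum_congr rfl fun k _ => by ring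
  have h3 : ∑ i, b (act B⁻¹ (bs i)) (act B⁻¹ (bs i)) = ((gram a)⁻¹ * gram b).trace := by
    rw [Finset.sum_congr rfl fun i _ => e1 i, hB, Matrix.mul_inv_rev]
    change (B⁻¹.transpose * gram b * B⁻¹).trace = _
    rw [Matrix.trace_mul_comm, ← Matrix.mul_assoc, Matrix.transpose_nonsing_inv]
  rw [← h3]
  exact Finset.sum_nonneg fun i _ => hb' _

theorem th_sq' (hn : 1 ≤ n) {a b : E n →L[ℝ] E n →L[ℝ] ℝ}
    (ha : ∀ v w, a v w = a w v) (ha' : ∀ v, v ≠ 0 → 0 < a v v)
    (hb' : ∀ v, 0 ≤ b v v) : ((gram a)⁻¹ * gram b).trace = n * th a b ^ 2 := by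
  have h1 : (0 : ℝ) < n := by exact_mod_cast hn
  rw [th, Real.sq_sqrt (div_nonneg (trace_nonneg' ha ha' hb') h1.le)]
  field_simp

/-- a nonnegative continuous multiple-homogeneous equation on the open ellipsoid holds everywhere -/
theorem spread {a b : E n →L[ℝ] E n →L[ℝ] ℝ} {c : ℝ} (ha0 : ∀ v, 0 ≤ a v v)
    (h : ∀ v, a v v < 1 → b v v = c * a v v) (v : E n) : b v v = c * a v v := by
  set s := a v v with hs
  have hs0 : 0 ≤ s := ha0 v
  set t : ℝ := 1 / (1 + s) with ht
  have ht0 : 0 < t := by positivity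
  have h5 : a (t • v) (t • v) = t ^ 2 * s := by
    simp only [map_smul, smul_apply, smul_eq_mul, hs]
    ring
  have h6 : b (t • v) (t • v) = t ^ 2 * b v v := by
    simp only [map_smul, smul_apply, smul_eq_mul]
    ring
  have h7 : t ^ 2 * s < 1 := by
    rw [ht, div_pow, one_pow, one_div, inv_mul_eq_div, div_lt_one (by positivity)]
    nlinarith
  have h10 := h (t • v) (by rw [h5]; exact h7)
  rw [h5, h6] at h10
  have h11 : t ^ 2 * (b v v - c * s) = 0 := by linarith
  rcases mul_eq_zero.1 h11 with h | h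
  · exact absurd h (by positivity)
  · linarith

theorem pointwise' (hn : 1 ≤ n) {C : ℝ}
    (hT : ∀ a b : E n →L[ℝ] E n →L[ℝ] ℝ,
      (∀ v w, a v w = a w v) → (∀ v, v ≠ 0 → 0 < a v v) → (∀ v w, b v w = b w v) →
      volume {v : E n | a v v ≤ 1} < ⊤ ∧ IntegrableOn (fun v => b v v) {v : E n | a v v ≤ 1} ∧
      ∫ v in {v : E n | a v v ≤ 1}, b v v = C / √(gram a).det * ((gram a)⁻¹ * gram b).trace)
    {a b : E n →L[ℝ] E n →L[ℝ] ℝ}
    (ha : ∀ v w, a v w = a w v) (ha' : ∀ v, v ≠ 0 → 0 < a v v)
    (hb : ∀ v w, b v w = b w v) (hb0 : ∀ v, 0 ≤ b v v) :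
    (∫⁻ v in {v : E n | a v v ≤ 1}, ENNReal.ofReal (a v v)) =
      ENNReal.ofReal (C * n / √(gram a).det) ∧
    ∃ J : ℝ, 0 ≤ J ∧
      (∫⁻ v in {v : E n | a v v ≤ 1}, ENNReal.ofReal (√(a v v) * √(b v v))) =
        ENNReal.ofReal J ∧
      J ≤ C * n * th a b / √(gram a).det ∧
      (J = C * n * th a b / √(gram a).det → ∀ v w, b v w = th a b ^ 2 * a v w) := by
  have ha0 : ∀ v, 0 ≤ a v v := fun v => by
    by_cases h : v = 0
    · simp [h]
    · exact (ha' v h).le
  have hdet : 0 < √(gram a).det := Real.sqrt_pos.2 (gram_posDef ha ha').det_pos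
  have hθ0 : 0 ≤ th a b := Real.sqrt_nonneg _
  have hac : Continuous fun v : E n => a v v := by fun_prop
  have hbc : Continuous fun v : E n => b v v := by fun_prop
  have hsa : Continuous fun v : E n => √(a v v) := hac.sqrt
  have hsb : Continuous fun v : E n => √(b v v) := hbc.sqrt
  obtain ⟨-, hia, hIa⟩ := hT a a ha ha' ha
  obtain ⟨-, hib, hIb⟩ := hT a b ha ha' hb
  have hmeas : MeasurableSet {v : E n | a v v ≤ 1} :=
    (isClosed_le hac continuous_const).measurableSet
  rw [Matrix.nonsing_inv_mul _ (IsUnit.mk0 _ (gram_posDef ha ha').det_pos.ne'),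
    Matrix.trace_one, Fintype.card_fin] at hIa
  rw [th_sq' hn ha ha' hb0] at hIb
  have hop : IsOpen {v : E n | a v v < 1} := isOpen_lt hac continuous_const
  have hsub : {v : E n | a v v < 1} ⊆ {v : E n | a v v ≤ 1} := fun v (hv : a v v < 1) =>
    show a v v ≤ 1 from hv.le
  -- integrability
  have hiab : IntegrableOn (fun v : E n => √(a v v) * √(b v v)) {v : E n | a v v ≤ 1} := by
    refine Integrable.mono' (hia.add hib) (hsa.mul hsb).aestronglyMeasurable
      (Filter.Eventually.of_forall fun v => ?_)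
    rw [Real.norm_of_nonneg (by positivity)]
    simp only [Pi.add_apply]
    have h1 := Real.sq_sqrt (ha0 v)
    have h2 := Real.sq_sqrt (hb0 v)
    nlinarith [sq_nonneg (√(a v v) - √(b v v)), sq_nonneg (√(a v v)), sq_nonneg (√(b v v))]
  refine ⟨?_, ∫ v in {v : E n | a v v ≤ 1}, √(a v v) * √(b v v),
    integral_nonneg fun v => by positivity, ?_, ?_⟩
  · rw [← ofReal_integral_eq_lintegral_ofReal hia (Filter.Eventually.of_forall fun v => ha0 v),
      hIa]
    congr 1
    ring
  · exact (ofReal_integral_eq_lintegral_ofReal hiab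
      (Filter.Eventually.of_forall fun v => by positivity)).symm
  rcases hθ0.eq_or_lt with hθ | hθ
  · -- the degenerate case
    rw [← hθ] at hIb ⊢
    have hI0 : ∫ v in {v : E n | a v v ≤ 1}, b v v = 0 := by rw [hIb]; ring
    have h1 := (integral_eq_zero_iff_of_nonneg_ae
      (Filter.Eventually.of_forall fun v : E n => hb0 v) hib).1 hI0
    have h2 := ae_restrict_of_ae_restrict_of_subset hsub h1
    have h3 : EqOn (fun v : E n => b v v) 0 {v : E n | a v v < 1} :=
      Measure.eqOn_open_of_ae_eq h2 hop hbc.continuousOn continuousOn_const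
    have h4 : ∀ v, b v v = 0 * a v v := spread ha0 fun v hv => by
      have h8 : b v v = 0 := h3 hv
      rw [h8, zero_mul]
    have h5 : ∀ v, b v v = 0 := fun v => by rw [h4, zero_mul]
    refine ⟨?_, fun _ v w => ?_⟩
    · simp [h5]
    · rw [form_ext ha hb h4]
      ring
  set θ := th a b with hθdef
  -- the deficit
  have hid : ∀ v : E n, (√(b v v) - θ * √(a v v)) ^ 2 =
      b v v + θ ^ 2 * a v v - 2 * θ * (√(a v v) * √(b v v)) := fun v => by
    have h1 := Real.sq_sqrt (ha0 v)
    have h2 := Real.sq_sqrt (hb0 v)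
    calc (√(b v v) - θ * √(a v v)) ^ 2 = √(b v v) ^ 2 + θ ^ 2 * √(a v v) ^ 2 -
          2 * θ * (√(a v v) * √(b v v)) := by ring
      _ = _ := by rw [h1, h2]
  have hiD : IntegrableOn (fun v : E n => (√(b v v) - θ * √(a v v)) ^ 2)
      {v : E n | a v v ≤ 1} := by
    simp only [hid]
    exact (hib.add (hia.const_mul _)).sub (hiab.const_mul _)
  have hE : ∫ v in {v : E n | a v v ≤ 1}, (√(b v v) - θ * √(a v v)) ^ 2 =
      2 * θ * (C * n * θ / √(gram a).det -
        ∫ v in {v : E n | a v v ≤ 1}, √(a v v) * √(b v v)) := by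
    simp only [hid]
    have e1 : ∫ v in {v : E n | a v v ≤ 1},
        (b v v + θ ^ 2 * a v v - 2 * θ * (√(a v v) * √(b v v))) =
        (∫ v in {v : E n | a v v ≤ 1}, (b v v + θ ^ 2 * a v v)) -
        ∫ v in {v : E n | a v v ≤ 1}, 2 * θ * (√(a v v) * √(b v v)) :=
      integral_sub (hib.add (hia.const_mul _)) (hiab.const_mul _)
    have e2 : ∫ v in {v : E n | a v v ≤ 1}, (b v v + θ ^ 2 * a v v) =
        (∫ v in {v : E n | a v v ≤ 1}, b v v) + ∫ v in {v : E n | a v v ≤ 1}, θ ^ 2 * a v v :=
      integral_add hib (hia.const_mul _)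
    rw [e1, e2, integral_const_mul, integral_const_mul, hIa, hIb]
    field_simp
    ring
  have hE0 : 0 ≤ ∫ v in {v : E n | a v v ≤ 1}, (√(b v v) - θ * √(a v v)) ^ 2 :=
    integral_nonneg fun v => sq_nonneg _
  refine ⟨?_, ?_⟩
  · rw [hE] at hE0
    have := nonneg_of_mul_nonneg_right hE0 (by positivity : (0 : ℝ) < 2 * θ)
    linarith
  · intro hJ
    rw [hJ, sub_self, mul_zero] at hE
    have h1 := (integral_eq_zero_iff_of_nonneg_ae
      (Filter.Eventually.of_forall fun v : E n => sq_nonneg (√(b v v) - θ * √(a v v))) hiD).1 hE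
    have h2 := ae_restrict_of_ae_restrict_of_subset hsub h1
    have h3 : EqOn (fun v : E n => (√(b v v) - θ * √(a v v)) ^ 2) 0 {v : E n | a v v < 1} :=
      Measure.eqOn_open_of_ae_eq h2 hop ((hsb.sub (hsa.const_mul θ)).pow 2).continuousOn
        continuousOn_const
    have h4 : ∀ v, b v v = θ ^ 2 * a v v := spread ha0 fun v hv => by
      have h8 := h3 hv
      simp only [Pi.zero_apply] at h8
      have h9 : √(b v v) = θ * √(a v v) := by
        have := pow_eq_zero_iff (two_ne_zero) |>.1 h8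
        linarith
      rw [← Real.sq_sqrt (hb0 v), h9, mul_pow, Real.sq_sqrt (ha0 _)]
    exact form_ext ha hb h4

theorem continuous_gram {h : Fld n} (hh : Continuous h) : Continuous fun x => gram (h x) := by
  refine continuous_matrix fun i j => ?_
  simp only [gram_apply]
  exact (hh.clm_apply continuous_const).clm_apply continuous_const

theorem continuous_Tr {g h : Fld n} (hg : IsMetric g) (hh : Continuous h) :
    Continuous (Tr g h) := by
  have h1 := continuous_gram hg.smooth.continuous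
  have h2 := continuous_gram hh
  have h3 : Continuous fun x => (gram (g x))⁻¹ := by
    simp only [Matrix.inv_def, Ring.inverse_eq_inv']
    exact (h1.matrix_det.inv₀ fun x => (hg.det_pos x).ne').smul h1.matrix_adjugate
  exact ((h3.matrix_mul h2).matrix_trace).div_const _

theorem p_CONF : P_CONF := by
  intro hTr n g h hn hg hh hA
  have hn1 : 1 ≤ n := by omega
  obtain ⟨C, hC, hT⟩ := hTr n hn1
  have hC0 : (0 : ℝ) < C * n := mul_pos hC (by exact_mod_cast hn1)
  choose Q1 J hJ0 hJ1 hJ2 hJ3 using fun x =>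
    pointwise' hn1 hT (hg.symm x) (hg.pos x) (hh.symm x) (hh.nonneg x)
  have hd : ∀ x, 0 < (gram (g x)).det := hg.det_pos
  have hr : ∀ x, 0 < √(gram (g x)).det := fun x => Real.sqrt_pos.2 (hd x)
  have hrr : ∀ x, (gram (g x)).det = √(gram (g x)).det * √(gram (g x)).det := fun x =>
    (Real.mul_self_sqrt (hd x).le).symm
  have hTr0 : ∀ x, 0 ≤ Tr g h x := fun x =>
    div_nonneg (trace_nonneg' (hg.symm x) (hg.pos x) (hh.nonneg x)) (Nat.cast_nonneg n)
  have hθ0 : ∀ x, 0 ≤ th (g x) (h x) := fun x => Real.sqrt_nonneg _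
  have hθT : ∀ x, th (g x) (h x) = √(Tr g h x) := fun x => rfl
  -- the inner integrals
  have K1 : ∀ x, (∫⁻ v in {v | g x v v ≤ 1}, ENNReal.ofReal (g x v v) *
      ENNReal.ofReal (rho g x)) = ENNReal.ofReal (C * n * √(gram (g x)).det) := by
    intro x
    rw [lintegral_mul_const' _ _ ENNReal.ofReal_ne_top, Q1 x, rho,
      ← ENNReal.ofReal_mul (by positivity)]
    congr 1
    have := (hr x).ne'
    rw [div_mul_eq_mul_div, div_eq_iff this]
    nth_rw 1 [hrr x]
    ring
  have K2 : ∀ x, (∫⁻ v in {v | g x v v ≤ 1}, ENNReal.ofReal (√(g x v v) * √(h x v v)) *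
      ENNReal.ofReal (rho g x)) = ENNReal.ofReal (J x * (gram (g x)).det) := by
    intro x
    rw [lintegral_mul_const' _ _ ENNReal.ofReal_ne_top, hJ1 x, rho,
      ← ENNReal.ofReal_mul (hJ0 x)]
  have B1 : ∀ x, J x * (gram (g x)).det ≤ C * n * (√(gram (g x)).det * th (g x) (h x)) := by
    intro x
    have h1 := mul_le_mul_of_nonneg_right (hJ2 x) (hd x).le
    refine h1.trans (le_of_eq ?_)
    rw [div_mul_eq_mul_div, div_eq_iff (hr x).ne']
    nth_rw 1 [hrr x]
    ring
  have hcT := continuous_Tr hg hh.smooth.continuous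
  have hcd : Continuous fun x => √(gram (g x)).det := (continuous_det hg).sqrt
  have hcθ : Continuous fun x => th (g x) (h x) := hcT.sqrt
  have hint : ∀ φ : E n → ℝ, Continuous φ → IntegrableOn φ (ball (0 : E n) 1) := fun φ hφ =>
    (hφ.continuousOn.integrableOn_compact (isCompact_closedBall (0 : E n) 1)).mono_set
      ball_subset_closedBall
  have hA2 : A2 g = ENNReal.ofReal (C * n * vo g) := by
    unfold A2 vo
    simp only [K1]
    rw [← integral_const_mul]
    exact (ofReal_integral_eq_lintegral_ofReal (hint _ (continuous_const.mul hcd))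
      (Filter.Eventually.of_forall fun x => mul_nonneg hC0.le (hr x).le)).symm
  have hcE : Continuous fun x => C * n * (√(gram (g x)).det * th (g x) (h x)) :=
    continuous_const.mul (hcd.mul hcθ)
  have hEn : ∫⁻ x in ball (0 : E n) 1,
      ENNReal.ofReal (C * n * (√(gram (g x)).det * th (g x) (h x))) =
      ENNReal.ofReal (C * n * en g h) := by
    unfold en
    rw [← integral_const_mul, ofReal_integral_eq_lintegral_ofReal (hint _ ?_)
      (Filter.Eventually.of_forall fun x => ?_)]
    · refine lintegral_congr fun x => ?_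
      rw [hθT, rho, mul_comm (√(gram (g x)).det)]
    · exact continuous_const.mul (hcT.sqrt.mul hcd)
    · have := hC0.le
      simp only [Pi.zero_apply]
      positivity
  have hA1 : A1 g h = ∫⁻ x in ball (0 : E n) 1, ENNReal.ofReal (J x * (gram (g x)).det) := by
    unfold A1
    simp only [K2]
  have hA1le : A1 g h ≤ ENNReal.ofReal (C * n * en g h) := by
    rw [hA1, ← hEn]
    exact lintegral_mono fun x => ENNReal.ofReal_le_ofReal (B1 x)
  have hen0 : 0 ≤ en g h := integral_nonneg fun x => by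
    simp only [Pi.zero_apply]
    positivity
  refine ⟨?_, fun hle => ⟨?_, ?_⟩⟩
  · have h1 : ENNReal.ofReal (C * n * vo g) ≤ ENNReal.ofReal (C * n * en g h) := by
      rw [← hA2]
      exact hA.trans hA1le
    rw [ENNReal.ofReal_le_ofReal_iff (mul_nonneg hC0.le hen0)] at h1
    exact le_of_mul_le_mul_left h1 hC0
  · rw [hA2]
    exact hA1le.trans (ENNReal.ofReal_le_ofReal (mul_le_mul_of_nonneg_left hle hC0.le))
  have h1 : ∫⁻ x in ball (0 : E n) 1,
      ENNReal.ofReal (C * n * (√(gram (g x)).det * th (g x) (h x))) ≤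
      ∫⁻ x in ball (0 : E n) 1, ENNReal.ofReal (J x * (gram (g x)).det) := by
    rw [hEn, ← hA1]
    refine (ENNReal.ofReal_le_ofReal (mul_le_mul_of_nonneg_left hle hC0.le)).trans ?_
    rw [← hA2]
    exact hA
  have hae := ae_eq_of_ae_le_of_lintegral_le (μ := volume.restrict (ball (0 : E n) 1))
    (Filter.Eventually.of_forall fun x => ENNReal.ofReal_le_ofReal (B1 x))
    (by
      rw [← hA1]
      exact (hA1le.trans_lt ENNReal.ofReal_lt_top).ne)
    hcE.measurable.ennreal_ofReal.aemeasurable h1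
  have hag : h =ᵐ[volume.restrict (ball (0 : E n) 1)] fun x => Tr g h x • g x := by
    filter_upwards [hae] with x hx
    rw [ENNReal.ofReal_eq_ofReal_iff (mul_nonneg (hJ0 x) (hd x).le)
      (mul_nonneg hC0.le (mul_nonneg (hr x).le (hθ0 x)))] at hx
    have h7 : J x = C * n * th (g x) (h x) / √(gram (g x)).det := by
      rw [eq_div_iff (hr x).ne']
      have h8 : √(gram (g x)).det * (J x * √(gram (g x)).det) =
          √(gram (g x)).det * (C * n * th (g x) (h x)) := by
        calc √(gram (g x)).det * (J x * √(gram (g x)).det)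
            = J x * (√(gram (g x)).det * √(gram (g x)).det) := by ring
          _ = J x * (gram (g x)).det := by rw [← hrr x]
          _ = C * n * (√(gram (g x)).det * th (g x) (h x)) := hx
          _ = _ := by ring
      exact mul_left_cancel₀ (hr x).ne' h8
    have h8 := hJ3 x h7
    ext v w
    rw [h8 v w, hθT, Real.sq_sqrt (hTr0 x)]
    rfl
  have hc : Continuous fun x => Tr g h x • g x := hcT.smul hg.smooth.continuous
  have hop := Measure.eqOn_open_of_ae_eq hag isOpen_ball hh.smooth.continuous.continuousOn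
    hc.continuousOn
  have hcl := hop.closure hh.smooth.continuous hc
  rw [closure_ball _ one_ne_zero] at hcl
  exact hcl

end Pool.Agent.W2helper74.EN
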